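import Mathlib

/-!
# A Hessenberg-type pair whose eigenspaces have different dimensions
-/

open Module

namespace Pool.Agent.Results.MP_d2cf4a_al.UnequalDims

/-- `A` is diagonalizable, `θ 0, …, θ d` is an ordering of its eigenvalues, and
`B V_i ⊆ V_0 + ⋯ + V_{i+1}`, where `V_i` is the eigenspace of `A` for `θ i`. -/
structure IsSide {K V : Type} [Field K] [AddCommGroup V] [Module K V] (A B : Module.End K V)
    (d : ℕ) (θ : Fin (d + 1) → K) : Prop where
  inj : Function.Injective θ
  eig : ∀ μ, A.HasEigenvalue μ ↔ ∃ i, θ i = μ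
  diag : ⨆ μ, A.eigenspace μ = ⊤
  hess : ∀ i, ∀ v ∈ A.eigenspace (θ i),
    B v ∈ ⨆ j, ⨆ (_ : j.1 ≤ i.1 + 1), A.eigenspace (θ j)

/-- Conditions 1-4 for the pair `A, B` with the given orderings of the eigenvalues. -/
structure IsPair {K V : Type} [Field K] [AddCommGroup V] [Module K V] (A B : Module.End K V)
    (d δ : ℕ) (θ : Fin (d + 1) → K) (θs : Fin (δ + 1) → K) : Prop where
  left : IsSide A B d θ
  right : IsSide B A δ θs
  irred : ∀ W : Submodule K V, (∀ v ∈ W, A v ∈ W) → (∀ v ∈ W, B v ∈ W) → W = ⊥ ∨ W = ⊤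

/-- The first map. -/
def mA : Module.End ℚ (Fin 5 → ℚ) where
  toFun v := ![v 0, v 0, 0, v 1 - v 3, v 2 - v 4]
  map_add' v w := by ext i; fin_cases i <;> simp <;> ring
  map_smul' c v := by ext i; fin_cases i <;> simp <;> ring

/-- The second map. -/
def mB : Module.End ℚ (Fin 5 → ℚ) where
  toFun v := ![v 0 + v 2, v 4, v 3, -v 3, -v 4]
  map_add' v w := by ext i; fin_cases i <;> simp <;> ring
  map_smul' c v := by ext i; fin_cases i <;> simp <;> ring

lemma mA_apply (v : Fin 5 → ℚ) : mA v = ![v 0, v 0, 0, v 1 - v 3, v 2 - v 4] := rfl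

lemma mB_apply (v : Fin 5 → ℚ) : mB v = ![v 0 + v 2, v 4, v 3, -v 3, -v 4] := rfl

lemma memA (v : Fin 5 → ℚ) (μ : ℚ) : v ∈ mA.eigenspace μ ↔
    v 0 = μ * v 0 ∧ v 0 = μ * v 1 ∧ 0 = μ * v 2 ∧ v 1 - v 3 = μ * v 3 ∧
      v 2 - v 4 = μ * v 4 := by
  rw [Module.End.mem_eigenspace_iff, mA_apply]
  constructor
  · intro h
    exact ⟨congrFun h 0, congrFun h 1, congrFun h 2, congrFun h 3, congrFun h 4⟩
  · rintro ⟨h0, h1, h2, h3, h4⟩
    ext i
    fin_cases i
    · simpa using h0
    · simpa using h1
    · simpa using h2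
    · simpa using h3
    · simpa using h4

lemma memB (v : Fin 5 → ℚ) (μ : ℚ) : v ∈ mB.eigenspace μ ↔
    v 0 + v 2 = μ * v 0 ∧ v 4 = μ * v 1 ∧ v 3 = μ * v 2 ∧ -v 3 = μ * v 3 ∧
      -v 4 = μ * v 4 := by
  rw [Module.End.mem_eigenspace_iff, mB_apply]
  constructor
  · intro h
    exact ⟨congrFun h 0, congrFun h 1, congrFun h 2, congrFun h 3, congrFun h 4⟩
  · rintro ⟨h0, h1, h2, h3, h4⟩
    ext i
    fin_cases i
    · simpa using h0
    · simpa using h1
    · simpa using h2
    · simpa using h3
    · simpa using h4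

/-- The eigenvalues of `mA`. -/
def th : Fin (2 + 1) → ℚ := ![-1, 0, 1]

/-- The eigenvalues of `mB`. -/
def ths : Fin (2 + 1) → ℚ := ![1, 0, -1]

/-- decomposition with respect to `mA` -/
lemma decA (v : Fin 5 → ℚ) : ∃ a b c : Fin 5 → ℚ, a ∈ mA.eigenspace (-1) ∧
    b ∈ mA.eigenspace 0 ∧ c ∈ mA.eigenspace 1 ∧ v = a + b + c ∧ (v 0 = 0 → c = 0) := by
  refine ⟨![0, 0, 0, v 3 - (v 1 - v 0) - v 0 / 2, v 4 - v 2],
    ![0, v 1 - v 0, v 2, v 1 - v 0, v 2], ![v 0, v 0, 0, v 0 / 2, 0], ?_, ?_, ?_, ?_, ?_⟩
  · rw [memA]; simp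
  · rw [memA]; simp
  · rw [memA]; simp; ring
  · ext i; fin_cases i <;> simp
    ring
  · intro h
    ext i; fin_cases i <;> simp [h]

/-- decomposition with respect to `mB` -/
lemma decB (v : Fin 5 → ℚ) : ∃ a b c : Fin 5 → ℚ, a ∈ mB.eigenspace 1 ∧
    b ∈ mB.eigenspace 0 ∧ c ∈ mB.eigenspace (-1) ∧ v = a + b + c ∧
      (v 3 = 0 → v 4 = 0 → c = 0) := by
  refine ⟨![v 0 + (v 2 + v 3) + - v 3 / 2, 0, 0, 0, 0],
    ![-(v 2 + v 3), v 1 + v 4, v 2 + v 3, 0, 0], ![v 3 / 2, -v 4, - v 3, v 3, v 4],
      ?_, ?_, ?_, ?_, ?_⟩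
  · rw [memB]; simp
  · rw [memB]; simp
  · rw [memB]; simp; ring
  · ext i; fin_cases i <;> simp
    ring
  · intro h h'
    ext i; fin_cases i <;> simp [h, h']

lemma irr (W : Submodule ℚ (Fin 5 → ℚ)) (hA : ∀ v ∈ W, mA v ∈ W) (hB : ∀ v ∈ W, mB v ∈ W) :
    W = ⊥ ∨ W = ⊤ := by
  by_cases h : ∀ v ∈ W, v 0 = 0
  · left
    rw [eq_bot_iff]
    intro w hw
    have h0 := h w hw
    have h2 : ∀ v ∈ W, v 2 = 0 := by
      intro v hv
      have := h _ (hB v hv)
      rw [mB_apply] at this
      simpa [h v hv] using this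
    have h3 : ∀ v ∈ W, v 3 = 0 := by
      intro v hv
      have := h2 _ (hB v hv)
      rw [mB_apply] at this
      simpa using this
    have h1 : ∀ v ∈ W, v 1 = 0 := by
      intro v hv
      have := h3 _ (hA v hv)
      rw [mA_apply] at this
      simpa [h3 v hv] using this
    have h4 : ∀ v ∈ W, v 4 = 0 := by
      intro v hv
      have := h1 _ (hB v hv)
      rw [mB_apply] at this
      simpa using this
    rw [Submodule.mem_bot]
    ext i
    fin_cases i
    · exact h0
    · exact h1 w hw
    · exact h2 w hw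
    · exact h3 w hw
    · exact h4 w hw
  · right
    push Not at h
    obtain ⟨w, hw, hw0⟩ := h
    have e0 : (![1, 0, 0, 0, 0] : Fin 5 → ℚ) ∈ W := by
      have hu : mA (mA w) + mA w ∈ W := W.add_mem (hA _ (hA _ hw)) (hA _ hw)
      have hu' : mB (mB (mA (mA w) + mA w)) + mB (mA (mA w) + mA w) ∈ W :=
        W.add_mem (hB _ (hB _ hu)) (hB _ hu)
      have := W.smul_mem (1 / (5 * w 0)) hu'
      convert this using 1
      simp only [mA_apply, mB_apply]
      ext i
      fin_cases i
      · simp
        field_simp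
        ring
      · simp
      · simp
      · simp
      · simp
    have e1 : (![0, 1, 0, 0, 0] : Fin 5 → ℚ) ∈ W := by
      have := W.sub_mem (hA _ e0) e0
      convert this using 1
      rw [mA_apply]
      ext i; fin_cases i <;> simp
    have e3 : (![0, 0, 0, 1, 0] : Fin 5 → ℚ) ∈ W := by
      have := hA _ e1
      convert this using 1
      rw [mA_apply]
      ext i; fin_cases i <;> simp
    have e2 : (![0, 0, 1, 0, 0] : Fin 5 → ℚ) ∈ W := by
      have := W.add_mem (hB _ e3) e3
      convert this using 1
      rw [mB_apply]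
      ext i; fin_cases i <;> simp
    have e4 : (![0, 0, 0, 0, 1] : Fin 5 → ℚ) ∈ W := by
      have := hA _ e2
      convert this using 1
      rw [mA_apply]
      ext i; fin_cases i <;> simp
    rw [eq_top_iff]
    intro v _
    have := W.add_mem (W.add_mem (W.add_mem (W.add_mem (W.smul_mem (v 0) e0)
      (W.smul_mem (v 1) e1)) (W.smul_mem (v 2) e2)) (W.smul_mem (v 3) e3))
      (W.smul_mem (v 4) e4)
    convert this using 1
    ext i; fin_cases i <;> simp

lemma sideA : IsSide mA mB 2 th where
  inj := by
    intro i j h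
    fin_cases i <;> fin_cases j <;> simp_all [th] <;> norm_num at h
  eig := by
    intro μ
    constructor
    · intro h
      obtain ⟨v, hv, hv0⟩ := h.exists_hasEigenvector
      rw [memA] at hv
      obtain ⟨h0, h1, h2, h3, h4⟩ := hv
      by_contra hne
      push Not at hne
      have n0 : μ ≠ -1 := fun h => hne 0 (by simp [th, h])
      have n1 : μ ≠ 0 := fun h => hne 1 (by simp [th, h])
      have n2 : μ ≠ 1 := fun h => hne 2 (by simp [th, h])
      apply hv0
      have z0 : v 0 = 0 := by
        have : (μ - 1) * v 0 = 0 := by linarith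
        rcases mul_eq_zero.1 this with h | h
        · exact absurd (by linarith) n2
        · exact h
      have z1 : v 1 = 0 := by
        rcases mul_eq_zero.1 (h1.symm.trans z0) with h | h
        · exact absurd h n1
        · exact h
      have z2 : v 2 = 0 := by
        rcases mul_eq_zero.1 h2.symm with h | h
        · exact absurd h n1
        · exact h
      have z3 : v 3 = 0 := by
        have : (μ + 1) * v 3 = 0 := by linarith
        rcases mul_eq_zero.1 this with h | h
        · exact absurd (by linarith) n0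
        · exact h
      have z4 : v 4 = 0 := by
        have : (μ + 1) * v 4 = 0 := by linarith
        rcases mul_eq_zero.1 this with h | h
        · exact absurd (by linarith) n0
        · exact h
      ext i
      fin_cases i <;> assumption
    · rintro ⟨i, rfl⟩
      fin_cases i
      · refine Module.End.hasEigenvalue_of_hasEigenvector (x := ![0, 0, 0, 1, 0]) ⟨?_, ?_⟩
        · rw [memA]; simp [th]
        · intro h
          have := congrFun h 3
          simp at this
      · refine Module.End.hasEigenvalue_of_hasEigenvector (x := ![0, 1, 0, 1, 0]) ⟨?_, ?_⟩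
        · rw [memA]; simp [th]
        · intro h
          have := congrFun h 3
          simp at this
      · refine Module.End.hasEigenvalue_of_hasEigenvector (x := ![2, 2, 0, 1, 0]) ⟨?_, ?_⟩
        · rw [memA]; simp [th]; norm_num
        · intro h
          have := congrFun h 3
          simp at this
  diag := by
    rw [eq_top_iff]
    intro v _
    obtain ⟨a, b, c, ha, hb, hc, rfl, _⟩ := decA v
    refine add_mem (add_mem ?_ ?_) ?_
    · exact (le_iSup (fun μ => mA.eigenspace μ) (-1)) ha
    · exact (le_iSup (fun μ => mA.eigenspace μ) 0) hb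
    · exact (le_iSup (fun μ => mA.eigenspace μ) 1) hc
  hess := by
    intro i v hv
    obtain ⟨a, b, c, ha, hb, hc, he, hz⟩ := decA (mB v)
    have key : ∀ (j : Fin (2 + 1)), j.1 ≤ i.1 + 1 → ∀ x ∈ mA.eigenspace (th j),
        x ∈ ⨆ j, ⨆ (_ : j.1 ≤ i.1 + 1), mA.eigenspace (th j) := by
      intro j hj x hx
      exact (le_iSup_of_le j (le_iSup_of_le hj le_rfl) :
        mA.eigenspace (th j) ≤ ⨆ j, ⨆ (_ : j.1 ≤ i.1 + 1), mA.eigenspace (th j)) hx
    rw [he]
    refine add_mem (add_mem ?_ ?_) ?_
    · exact key 0 (by simp) a (by simpa [th] using ha)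
    · exact key 1 (by simp) b (by simpa [th] using hb)
    · by_cases hi : 1 ≤ i.1
      · exact key 2 (by simpa using hi) c (by simpa [th] using hc)
      · have hi0 : i = 0 := by
          ext
          simp at hi
          simpa using hi
        subst hi0
        have : (mB v) 0 = 0 := by
          rw [memA] at hv
          obtain ⟨h0, h1, h2, h3, h4⟩ := hv
          simp [th] at h0 h1 h2 h3 h4
          rw [mB_apply]
          simp
          linarith
        rw [hz this]
        exact zero_mem _

lemma sideB : IsSide mB mA 2 ths where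
  inj := by
    intro i j h
    fin_cases i <;> fin_cases j <;> simp_all [ths] <;> norm_num at h
  eig := by
    intro μ
    constructor
    · intro h
      obtain ⟨v, hv, hv0⟩ := h.exists_hasEigenvector
      rw [memB] at hv
      obtain ⟨h0, h1, h2, h3, h4⟩ := hv
      by_contra hne
      push Not at hne
      have n0 : μ ≠ 1 := fun h => hne 0 (by simp [ths, h])
      have n1 : μ ≠ 0 := fun h => hne 1 (by simp [ths, h])
      have n2 : μ ≠ -1 := fun h => hne 2 (by simp [ths, h])
      apply hv0
      have z3 : v 3 = 0 := by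
        have : (μ + 1) * v 3 = 0 := by linarith
        rcases mul_eq_zero.1 this with h | h
        · exact absurd (by linarith) n2
        · exact h
      have z4 : v 4 = 0 := by
        have : (μ + 1) * v 4 = 0 := by linarith
        rcases mul_eq_zero.1 this with h | h
        · exact absurd (by linarith) n2
        · exact h
      have z1 : v 1 = 0 := by
        rcases mul_eq_zero.1 (h1.symm.trans z4) with h | h
        · exact absurd h n1
        · exact h
      have z2 : v 2 = 0 := by
        rcases mul_eq_zero.1 (h2.symm.trans z3) with h | h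
        · exact absurd h n1
        · exact h
      have z0 : v 0 = 0 := by
        have : (μ - 1) * v 0 = 0 := by linarith
        rcases mul_eq_zero.1 this with h | h
        · exact absurd (by linarith) n0
        · exact h
      ext i
      fin_cases i <;> assumption
    · rintro ⟨i, rfl⟩
      fin_cases i
      · refine Module.End.hasEigenvalue_of_hasEigenvector (x := ![1, 0, 0, 0, 0]) ⟨?_, ?_⟩
        · rw [memB]; simp [ths]
        · intro h
          have := congrFun h 0
          simp at this
      · refine Module.End.hasEigenvalue_of_hasEigenvector (x := ![0, 1, 0, 0, 0]) ⟨?_, ?_⟩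
        · rw [memB]; simp [ths]
        · intro h
          have := congrFun h 1
          simp at this
      · refine Module.End.hasEigenvalue_of_hasEigenvector (x := ![0, 1, 0, 0, -1]) ⟨?_, ?_⟩
        · rw [memB]; simp [ths]
        · intro h
          have := congrFun h 1
          simp at this
  diag := by
    rw [eq_top_iff]
    intro v _
    obtain ⟨a, b, c, ha, hb, hc, rfl, _⟩ := decB v
    refine add_mem (add_mem ?_ ?_) ?_
    · exact (le_iSup (fun μ => mB.eigenspace μ) 1) ha
    · exact (le_iSup (fun μ => mB.eigenspace μ) 0) hb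
    · exact (le_iSup (fun μ => mB.eigenspace μ) (-1)) hc
  hess := by
    intro i v hv
    obtain ⟨a, b, c, ha, hb, hc, he, hz⟩ := decB (mA v)
    have key : ∀ (j : Fin (2 + 1)), j.1 ≤ i.1 + 1 → ∀ x ∈ mB.eigenspace (ths j),
        x ∈ ⨆ j, ⨆ (_ : j.1 ≤ i.1 + 1), mB.eigenspace (ths j) := by
      intro j hj x hx
      exact (le_iSup_of_le j (le_iSup_of_le hj le_rfl) :
        mB.eigenspace (ths j) ≤ ⨆ j, ⨆ (_ : j.1 ≤ i.1 + 1), mB.eigenspace (ths j)) hx
    rw [he]
    refine add_mem (add_mem ?_ ?_) ?_
    · exact key 0 (by simp) a (by simpa [ths] using ha)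
    · exact key 1 (by simp) b (by simpa [ths] using hb)
    · by_cases hi : 1 ≤ i.1
      · exact key 2 (by simpa using hi) c (by simpa [ths] using hc)
      · have hi0 : i = 0 := by
          ext
          simp at hi
          simpa using hi
        subst hi0
        rw [memB] at hv
        obtain ⟨h0, h1, h2, h3, h4⟩ := hv
        simp [ths] at h0 h1 h2 h3 h4
        have h5 : v 4 = 0 := by linarith
        have h6 : v 3 = 0 := by linarith
        have h7 : v 1 = 0 := by linarith
        rw [hz (by rw [mA_apply]; simp [h6, h7]) (by rw [mA_apply]; simp [h0, h5])]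
        exact zero_mem _

lemma dimA : finrank ℚ (mA.eigenspace (th 0)) = 2 := by
  have e : (Fin 2 → ℚ) ≃ₗ[ℚ] mA.eigenspace (th 0) :=
    { toFun := fun x => ⟨![0, 0, 0, x 0, x 1], by rw [memA]; simp [th]⟩
      map_add' := fun x y => by ext i; fin_cases i <;> simp
      map_smul' := fun c x => by ext i; fin_cases i <;> simp
      invFun := fun v => ![v.1 3, v.1 4]
      left_inv := fun x => by ext i; fin_cases i <;> simp
      right_inv := fun v => by
        obtain ⟨v, hv⟩ := v
        rw [memA] at hv
        obtain ⟨h0, h1, h2, h3, h4⟩ := hv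
        simp [th] at h0 h1 h2 h3 h4
        have z0 : v 0 = 0 := by linarith
        have z1 : v 1 = 0 := by linarith
        ext i
        fin_cases i
        · simp [z0]
        · simp [z1]
        · simp [h2]
        · simp
        · simp }
  rw [← e.finrank_eq, Module.finrank_fin_fun]

lemma dimB : finrank ℚ (mB.eigenspace (ths 0)) = 1 := by
  have e : (Fin 1 → ℚ) ≃ₗ[ℚ] mB.eigenspace (ths 0) :=
    { toFun := fun x => ⟨![x 0, 0, 0, 0, 0], by rw [memB]; simp [ths]⟩
      map_add' := fun x y => by ext i; fin_cases i <;> simp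
      map_smul' := fun c x => by ext i; fin_cases i <;> simp
      invFun := fun v => ![v.1 0]
      left_inv := fun x => by ext i; fin_cases i; simp
      right_inv := fun v => by
        obtain ⟨v, hv⟩ := v
        rw [memB] at hv
        obtain ⟨h0, h1, h2, h3, h4⟩ := hv
        simp [ths] at h0 h1 h2 h3 h4
        have z4 : v 4 = 0 := by linarith
        have z3 : v 3 = 0 := by linarith
        have z1 : v 1 = 0 := by linarith
        ext i
        fin_cases i
        · simp
        · simp [z1]
        · simp [h0]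
        · simp [z3]
        · simp [z4] }
  rw [← e.finrank_eq, Module.finrank_fin_fun]

/-- There are maps satisfying conditions 1-4, on a space of dimension 5 over the rationals and
with `d = δ = 2`, for which `dim V_0 = 2` and `dim V*_0 = 1`; so (c) fails. -/
theorem result : ∃ (A B : Module.End ℚ (Fin 5 → ℚ)) (θ θs : Fin (2 + 1) → ℚ),
    IsPair A B 2 2 θ θs ∧ finrank ℚ (A.eigenspace (θ 0)) = 2 ∧
      finrank ℚ (B.eigenspace (θs 0)) = 1 :=
  ⟨mA, mB, th, ths, ⟨sideA, sideB, irr⟩, dimA, dimB⟩

end Pool.Agent.Results.MP_d2cf4a_al.UnequalDims
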